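import Pool.Agent.Helper26.DA.Goals

/-!
# Project DA, packet V0D
-/

set_option autoImplicit false

namespace Pool.Agent.Helper16.DA

universe u v

section

variable {B : Type v} [CommRing B] {V : ℕ → Type u} [∀ i, AddCommGroup (V i)]
  [∀ i, Module B (V i)] {e : ℕ}

/-- The composition of the first `m` operators, down to degree `0`. -/
def dn (D : Fin e → ∀ i, V (i + 1) →ₗ[B] V i) (l : ℕ → Fin e) : ∀ m : ℕ, V m →ₗ[B] V 0
  | 0 => LinearMap.id
  | m + 1 => (dn D l m).comp (D (l m) m)

/-- The composition of the first `m` maps `h`, from degree `0`. -/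
def up (h : ℕ → ∀ i, V i →+ V (i + 1)) (v : V 0) : ∀ m : ℕ, V m
  | 0 => v
  | m + 1 => h m m (up h v m)

/-- Leave out `j`. -/
def skip (j k : ℕ) : ℕ := if k < j then k else k + 1

theorem dn_congr (D : Fin e → ∀ i, V (i + 1) →ₗ[B] V i) (l l' : ℕ → Fin e) (m : ℕ)
    (hl : ∀ k < m, l k = l' k) : dn D l m = dn D l' m := by
  induction m with
  | zero => rfl
  | succ m ih =>
    rw [dn, dn, ih (fun k hk => hl k (by omega)), hl m (by omega)]

theorem dn_mem (q : Ideal B) (D : Fin e → ∀ i, V (i + 1) →ₗ[B] V i) (l : ℕ → Fin e) (m : ℕ)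
    {w : V m} (hw : w ∈ q • (⊤ : Submodule B (V m))) :
    dn D l m w ∈ q • (⊤ : Submodule B (V 0)) := by
  have h1 : dn D l m w ∈ (q • (⊤ : Submodule B (V m))).map (dn D l m) :=
    Submodule.mem_map_of_mem hw
  rw [Submodule.map_smul''] at h1
  exact (Submodule.smul_mono le_rfl le_top) h1

theorem leib (q : Ideal B) (D : Fin e → ∀ i, V (i + 1) →ₗ[B] V i) (c : ℕ → Fin e → B)
    (h : ℕ → ∀ i, V i →+ V (i + 1))
    (h0 : ∀ j l v, D l 0 (h j 0 v) - c j l • v ∈ q • (⊤ : Submodule B (V 0)))
    (h1 : ∀ j l i v, D l (i + 1) (h j (i + 1) v) + h j i (D l i v) - c j l • v ∈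
      q • (⊤ : Submodule B (V (i + 1)))) (i : ℕ) (l : ℕ → Fin e) (m : ℕ) : ∀ w : V m,
    dn D l (m + 1) (h i m w) - ∑ j ∈ Finset.range (m + 1),
      ((-1 : B) ^ (m + j) * c i (l j)) • dn D (fun k => l (skip j k)) m w ∈
        q • (⊤ : Submodule B (V 0)) := by
  induction m with
  | zero =>
    intro w
    simp only [zero_add, Finset.range_one, Finset.sum_singleton, pow_zero, one_mul]
    exact h0 i (l 0) w
  | succ m ih =>
    intro w
    have h2 := dn_mem q D l (m + 1) (h1 i (l (m + 1)) m w)
    have h3 := ih (D (l (m + 1)) m w)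
    rw [map_sub, map_add, map_smul] at h2
    have h4 : dn D l (m + 1 + 1) (h i (m + 1) w) =
        dn D l (m + 1) (D (l (m + 1)) (m + 1) (h i (m + 1) w)) := rfl
    rw [h4]
    have h5 := Submodule.sub_mem _ h2 h3
    have h6 : ∑ j ∈ Finset.range (m + 1 + 1),
        ((-1 : B) ^ (m + 1 + j) * c i (l j)) • dn D (fun k => l (skip j k)) (m + 1) w =
        c i (l (m + 1)) • dn D l (m + 1) w - ∑ j ∈ Finset.range (m + 1),
          ((-1 : B) ^ (m + j) * c i (l j)) •
            dn D (fun k => l (skip j k)) m (D (l (m + 1)) m w) := by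
      rw [Finset.sum_range_succ, add_comm, sub_eq_add_neg, ← Finset.sum_neg_distrib]
      congr 1
      · rw [dn_congr D (fun k => l (skip (m + 1) k)) l (m + 1) (fun k hk => by
          simp only [skip, if_pos hk])]
        rw [← two_mul, pow_mul, neg_one_sq, one_pow, one_mul]
      · refine Finset.sum_congr rfl fun j hj => ?_
        have hj' : ¬ m < j := by have := Finset.mem_range.1 hj; omega
        have h7 : dn D (fun k => l (skip j k)) (m + 1) w =
            dn D (fun k => l (skip j k)) m (D (l (m + 1)) m w) := by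
          change dn D (fun k => l (skip j k)) m (D (l (skip j m)) m w) = _
          simp only [skip, if_neg hj']
        rw [h7, ← neg_smul]
        congr 1
        ring
    rw [h6]
    convert h5 using 1
    abel

theorem det_mod (q : Ideal B) (D : Fin e → ∀ i, V (i + 1) →ₗ[B] V i) (c : ℕ → Fin e → B)
    (h : ℕ → ∀ i, V i →+ V (i + 1))
    (h0 : ∀ j l v, D l 0 (h j 0 v) - c j l • v ∈ q • (⊤ : Submodule B (V 0)))
    (h1 : ∀ j l i v, D l (i + 1) (h j (i + 1) v) + h j i (D l i v) - c j l • v ∈
      q • (⊤ : Submodule B (V (i + 1)))) (v : V 0) (m : ℕ) : ∀ l : ℕ → Fin e,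
    dn D l m (up h v m) - (Matrix.of fun i j : Fin m => c i (l j)).det • v ∈
      q • (⊤ : Submodule B (V 0)) := by
  induction m with
  | zero =>
    intro l
    simp [dn, up]
  | succ m ih =>
    intro l
    have h2 := leib q D c h h0 h1 m l m (up h v m)
    have h3 : ∑ j ∈ Finset.range (m + 1), ((-1 : B) ^ (m + j) * c m (l j)) •
        (dn D (fun k => l (skip j k)) m (up h v m) -
          (Matrix.of fun i k : Fin m => c i (l (skip j k))).det • v) ∈
        q • (⊤ : Submodule B (V 0)) :=
      Submodule.sum_mem _ fun j _ => Submodule.smul_mem _ _ (ih fun k => l (skip j k))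
    have h4 : (Matrix.of fun i j : Fin (m + 1) => c i (l j)).det =
        ∑ j ∈ Finset.range (m + 1), (-1 : B) ^ (m + j) * c m (l j) *
          (Matrix.of fun i k : Fin m => c i (l (skip j k))).det := by
      rw [Matrix.det_succ_row _ (Fin.last m), Finset.sum_range]
      refine Finset.sum_congr rfl fun j _ => ?_
      have h5 : (Matrix.of fun i j : Fin (m + 1) => c i (l j)).submatrix
          (Fin.last m).succAbove j.succAbove = Matrix.of fun i k : Fin m => c i (l (skip j k)) := by
        ext i k
        simp only [Matrix.submatrix_apply, Matrix.of_apply, Fin.succAbove_last, Fin.val_castSucc]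
        congr 2
        rw [skip]
        by_cases hk : (k : ℕ) < j
        · rw [if_pos hk, Fin.succAbove_of_castSucc_lt _ _ (by exact hk), Fin.val_castSucc]
        · rw [if_neg hk, Fin.succAbove_of_le_castSucc _ _ (by
            rw [Fin.le_def, Fin.val_castSucc]; omega), Fin.val_succ]
      rw [h5]
      simp only [Matrix.of_apply, Fin.val_last]
    have h6 := Submodule.add_mem _ h2 h3
    convert h6 using 1
    rw [h4, Finset.sum_smul]
    simp only [smul_sub, Finset.sum_sub_distrib, smul_smul]
    simp only [up]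
    abel

end

theorem gV0D : Pool.Agent.Helper26.DA.G_V0D.{u, v} := by
  intro B _ q V _ _ e D c h h0 h1 p hp l v
  have h2 := det_mod q D c h h0 h1 v (p + 1) l
  have h3 : up h v (p + 1) = 0 := Subsingleton.elim _ _
  rw [h3, map_zero, zero_sub] at h2
  simpa using Submodule.neg_mem _ h2

end Pool.Agent.Helper16.DA
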